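import Pool.Agent.J4.H4.ML.Main

/-!
# Metabelian Lie algebras are determined by their enveloping algebras

Let `F` be a field of characteristic zero and `L` a finite-dimensional metabelian Lie algebra over
`F`. If `H` is a Lie algebra over `F` with `U(L) ≅ U(H)` as `F`-algebras, then `L ≅ H`.

Sketch of the proof. Growth (PBW) gives `dim H ≤ dim L`. Compose with a translation so that the
isomorphism respects augmentations. Let `ω` be the augmentation ideal and `J` the ideal generated by
the commutators. The algebra `Q = U/ωJ` is an extension of the polynomial algebra `S = U/J` by the
derived algebra (here PBW and `L'' = 0` are used), and `L`, `H` are two Lie subalgebras of `Q`,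
spanned by `A = J/ωJ` and lifts of the coordinates `f`, respectively `x`, of two polynomial
coordinate systems. The vector fields on `S` that vanish at `0` and lift to derivations of `Q` form
an `S`-module. It contains `γ - γ(0)` for every `γ` induced by a derivation of `U(H)`; these `γ`
are closed under partial derivatives and contain the columns of the inverse Jacobian matrix of `f`.
By Euler's identity the module contains the coefficients of the vector field of the path
`f (t x) / t` from the linear part of `f` to `f`. Solving a linear differential equation over
`F⟦t⟧` and descending the solution (of a linear system) to `F[t]` gives isomorphisms of almost all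
members of the family of Lie subalgebras with those at `t = 0` and at `t = 1`.
-/

namespace Pool.Agent.Results.MP_6e5a6a_al.MetabelianDetermined

universe u v w

theorem result (F : Type u) [Field F] [CharZero F]
    (L : Type v) [LieRing L] [LieAlgebra F L] [FiniteDimensional F L]
    (hL : ∀ a b c d : L, ⁅⁅a, b⁆, ⁅c, d⁆⁆ = 0)
    (H : Type w) [LieRing H] [LieAlgebra F H]
    (hLH : Nonempty (UniversalEnvelopingAlgebra F L ≃ₐ[F] UniversalEnvelopingAlgebra F H)) :
    Nonempty (L ≃ₗ⁅F⁆ H) := by
  obtain ⟨e⟩ := hLH
  exact Pool.Agent.J4.H4.ML.main hL e

end Pool.Agent.Results.MP_6e5a6a_al.MetabelianDetermined
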